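import Pool.Agent.Run7.h694.FM.F

/-!
# Value distribution of eigenfunctions: limit laws and the fourth moment (MP_a52643_an)

`X` is a surface with charts of isothermal coordinates, `vol` its area measure; `Chart`,
`IsEigenfunction`, `IsEnergyDensity`, `IsTestFunction` and `JetsConverge` are the definitions of the
file `FirstJets` of this folder. On a closed surface the test function may be `Φ = 1`.

In the metric rescaled by `λ` the operator `D = (λ ρ)^{-1/2} (∂x - i ∂y)` is the derivative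
`∂_1 - i ∂_2` in the conformal orthonormal frame; at a unit momentum of direction `α` its symbol is
`sym α = i exp(-iα)`. `HasSemiclassicalMeasure C lam u ν` says that the sequence `u n` has, over the
chart `C`, the semiclassical measure `ν_z(dα) dvol(z)` on the unit cosphere bundle: the mass `u² dvol`
becomes equidistributed, and `ν_z` is the law of the direction of the momentum at `z`. Quantum
ergodicity (normalised by `∫ u² dvol = vol X`) is the case of the uniform `ν_z`.

The theorem: if the fourth moment of the sequence is at most `κ` in the limit, then at most the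
proportion `(κ - 3) / (κ - 2)` of the surface carries small values, uniformly in the eigenvalue, every
limit law of `(u, |∇u|² / λ)` has the mean, the second and the third moment of the standard normal law
in its first coordinate, and an atom of mass at most `(κ - 3) / (κ - 2)` at `0`. With the fourth moment
of the random wave (`κ = 3`) there is no atom, so that every limit law of `u` is absolutely continuous
and the laws converge to it in total variation, along the subsequence.

Proof. The small value inequality of MP_4fa179_mp (starting tree) in the charts, summed over the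
charts with the inequality of Cauchy and Schwarz; the theorem on third moments; and the theorem on
first jets, in which an atom at `(0, 0)` was the only obstruction to convergence in total variation.
-/

set_option autoImplicit false
open MeasureTheory Filter Topology Complex ProbabilityTheory
open scoped ContDiff ENNReal BoundedContinuousFunction

namespace Pool.Agent.Results.MP_a52643_an.FourthMomentLimitLaws

noncomputable section

open Pool.Agent.Results.MP_a52643_an.FirstJets Pool.Agent.W745.RW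

/-- the normalised frame derivative `(λ ρ)^{-1/2} (∂x - i ∂y)` -/
def D (ρ : ℂ → ℝ) (lam : ℝ) (f : ℂ → ℂ) (z : ℂ) : ℂ :=
  ((1 / √(lam * ρ z) : ℝ) : ℂ) * (dx f z - I * dy f z)

/-- the symbol of `D` at a unit momentum of direction `α` -/
def sym (α : ℝ) : ℂ := I * Complex.exp (-(α : ℂ) * I)

/-- the probability that two independent directions of law `ν` are parallel (equal or opposite) -/
def parallel (ν : Measure ℝ) : ℝ :=
  (ν.prod ν).real {p | Real.sin (p.1 - p.2) = 0}

variable {X : Type*} [TopologicalSpace X] [MeasurableSpace X] {vol : Measure X}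

/-- the sequence `u n` has the semiclassical measure `ν_z(dα) dvol(z)` over the chart `C` -/
def HasSemiclassicalMeasure (C : Chart X vol) (lam : ℕ → ℝ) (u : ℕ → X → ℝ) (ν : Kernel ℂ ℝ) :
    Prop :=
  ∀ φ, TF C.c.target φ → ∀ k : ℕ, Tendsto (fun n => ∫ z, ((φ z * C.ρ z : ℝ) : ℂ) *
      ((u n (C.c.symm z) : ℂ) * (D C.ρ (lam n))^[k] (fun w => (u n (C.c.symm w) : ℂ)) z)) atTop
      (𝓝 (∫ z, ((φ z * C.ρ z : ℝ) : ℂ) * ∫ α, sym α ^ k ∂(ν z)))

open Pool.Agent.N252.TV Pool.Agent.N252.LL Run7.h694.FM in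
/-- **Limit laws and the fourth moment.** Let `u n` be eigenfunctions with eigenvalues
`0 < lam n → ∞` on a surface of finite area, with bounded fourth moments, which have over every chart a
semiclassical measure `ν_z(dα) dvol(z)` such that `ν_z` has no atoms modulo `π` for almost all `z`
(for instance, a quantum ergodic sequence). Let `E n = |∇ u n|² / lam n`, let `Φ` be a test function
with positive integral (`Φ = 1` on a closed surface), and let the fourth moments of `u n` with respect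
to `Φ vol` be at most `κ` in the limit.
(1) `κ ≥ 3`. (2) For every `η > 0` there is `t > 0` such that for all large `n` the proportion of the
points with `|u n| ≤ t` is at most `(κ - 3) / (κ - 2) + η`. (3) Every subsequence has a further
subsequence along which the laws of `(u n, E n)` converge weakly to a probability measure `P`.
(4) For every such limit `P`, with `ξ` the first coordinate, the moments of `ξ` of orders one, two and
three are `0`, `1` and `0`, the fourth is at most `κ`, and `P(ξ = 0) ≤ (κ - 3) / (κ - 2)`. If `κ = 3`,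
then the law of `ξ` is absolutely continuous, and for all continuous functions `w` with `w(e) / e → 0`
(for instance `w = 1`) the integrals of `w(E n) g(u n)` converge to their limits uniformly over all
measurable `g` with `|g| ≤ 1`. -/
theorem result {X : Type*} [TopologicalSpace X] [MeasurableSpace X] [BorelSpace X]
    (vol : Measure X) [IsFiniteMeasure vol] (A : ℕ → Chart X vol) (lam : ℕ → ℝ)
    (hpos : ∀ n, 0 < lam n) (hlam : Tendsto lam atTop atTop) (u E : ℕ → X → ℝ)
    (hu : ∀ n, IsEigenfunction A (lam n) (u n)) (hE : ∀ n, IsEnergyDensity A (lam n) (u n) (E n))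
    (ν : ℕ → Kernel ℂ ℝ) (hν : ∀ i, IsMarkovKernel (ν i))
    (hsc : ∀ i, HasSemiclassicalMeasure (A i) lam u (ν i))
    (hpar : ∀ i, ∀ᵐ z ∂(volume.restrict (A i).c.target), parallel (ν i z) = 0)
    (B : ℝ) (hB : ∀ n, Integrable (fun x => u n x ^ 4) vol ∧ ∫ x, u n x ^ 4 ∂vol ≤ B)
    (Φ : X → ℝ) (hΦ : IsTestFunction A Φ) (hΦ0 : 0 < ∫ x, Φ x ∂vol) (κ : ℝ)
    (hκ : ∀ δ : ℝ, 0 < δ → ∀ᶠ n in atTop,
      ∫ x, Φ x * u n x ^ 4 ∂vol ≤ (κ + δ) * ∫ x, Φ x ∂vol) :
    3 ≤ κ ∧
    (∀ η : ℝ, 0 < η → ∃ t : ℝ, 0 < t ∧ ∀ᶠ n in atTop,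
      ∫ x in {x | |u n x| ≤ t}, Φ x ∂vol ≤ ((κ - 3) / (κ - 2) + η) * ∫ x, Φ x ∂vol) ∧
    (∀ σ : ℕ → ℕ, StrictMono σ → ∃ τ : ℕ → ℕ, StrictMono τ ∧ ∃ P : ProbabilityMeasure (ℝ × ℝ),
      JetsConverge vol Φ (fun n => u (σ (τ n))) (fun n => E (σ (τ n))) P) ∧
    ∀ (σ : ℕ → ℕ) (P : ProbabilityMeasure (ℝ × ℝ)), StrictMono σ →
      JetsConverge vol Φ (fun n => u (σ n)) (fun n => E (σ n)) P →
      (Integrable (fun p : ℝ × ℝ => p.1 ^ 4) (P : Measure (ℝ × ℝ)) ∧
        ∫ p, p.1 ∂(P : Measure (ℝ × ℝ)) = 0 ∧ ∫ p, p.1 ^ 2 ∂(P : Measure (ℝ × ℝ)) = 1 ∧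
        ∫ p, p.1 ^ 3 ∂(P : Measure (ℝ × ℝ)) = 0 ∧ ∫ p, p.1 ^ 4 ∂(P : Measure (ℝ × ℝ)) ≤ κ) ∧
      (P : Measure (ℝ × ℝ)).real {p | p.1 = 0} ≤ (κ - 3) / (κ - 2) ∧
      (κ = 3 → (∀ N : Set ℝ, MeasurableSet N → volume N = 0 →
          (P : Measure (ℝ × ℝ)) {p | p.1 ∈ N} = 0) ∧
        ∀ w : ℝ → ℝ, Continuous w → Tendsto (fun e => w e / e) atTop (𝓝 0) →
          ∀ δ : ℝ, 0 < δ → ∀ᶠ n in atTop, ∀ g : ℝ → ℝ, Measurable g → (∀ x, |g x| ≤ 1) →
            |∫ x, Φ x * (w (E (σ n) x) * g (u (σ n) x)) ∂vol -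
              (∫ x, Φ x ∂vol) * ∫ p : ℝ × ℝ, w p.2 * g p.1 ∂(P : Measure (ℝ × ℝ))| ≤ δ) := by
  obtain ⟨A', hA'⟩ : ∃ A' : ℕ → IsoChart X vol, A' = fun i =>
      (⟨(A i).c, (A i).ρ, (A i).smooth, (A i).pos, (A i).area⟩ : IsoChart X vol) := ⟨_, rfl⟩
  have hA2 : ∀ i, (A' i).c = (A i).c ∧ (A' i).ρ = (A i).ρ := fun i => by rw [hA']; exact ⟨rfl, rfl⟩
  have hu2 : ∀ n, IsEigen A' (lam n) (u n) := by
    intro n
    refine ⟨(hu n).1, fun i => ?_, fun i z hz => ?_⟩
    · rw [(hA2 i).1]; exact ((hu n).2 i).1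
    · rw [(hA2 i).1] at hz ⊢
      rw [(hA2 i).2]
      have h1 := ((hu n).2 i).2 z hz
      have h2 := (A i).pos z hz
      rw [div_eq_iff h2.ne'] at h1
      have e : Pool.Agent.N252.TV.lapl (u n ∘ (A i).c.symm) z =
        FirstJets.lapl (u n ∘ (A i).c.symm) z := rfl
      rw [e, h1]
      show - lam n * u n ((A i).c.symm z) * (A i).ρ z +
        lam n * ((A i).ρ z * u n ((A i).c.symm z)) = 0
      ring
  obtain ⟨s, φ, hφ, hs⟩ := id hΦ
  have T : IsTe A' s φ Φ := by
    refine ⟨fun i hi => ⟨(hφ i hi).1, (hφ i hi).2.1, ?_⟩, fun i hi => (hφ i hi).2.2.2, fun x => ?_⟩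
    · rw [(hA2 i).1]; exact (hφ i hi).2.2.1
    · rw [hs x]
      refine Finset.sum_congr rfl fun i _ => ?_
      unfold pc
      rw [(hA2 i).1]
  have H : ∀ σ : ℕ → ℕ, StrictMono σ →
      Hy A' (fun n => lam (σ n)) (fun n => u (σ n)) ν B := by
    intro σ hσ
    refine ⟨fun n => hpos _, hlam.comp hσ.tendsto_atTop, fun n => hu2 _, hν, fun i => ?_,
      fun i => ?_, fun n => hB _⟩
    · intro φ hφ k
      have hφ' : TF (A i).c.target φ := by rw [← (hA2 i).1]; exact hφ
      have h := (hsc i φ hφ' k).comp hσ.tendsto_atTop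
      rw [hA']
      exact h
    · rw [(hA2 i).1]; exact hpar i
  have hκ2 : ∀ σ : ℕ → ℕ, StrictMono σ → ∀ δ : ℝ, 0 < δ → ∀ᶠ n in atTop,
      ∫ x, Φ x * u (σ n) x ^ 4 ∂vol ≤ (κ + δ) * ∫ x, Φ x ∂vol := fun σ hσ δ hδ =>
    hσ.tendsto_atTop.eventually (hκ δ hδ)
  obtain ⟨k3, small⟩ := (H id strictMono_id).small_mass T hΦ0 (hκ2 id strictMono_id)
  have L2 := (H id strictMono_id).l2
  refine ⟨k3, small, fun σ hσ => ?_, fun σ P hσ hP => ?_⟩
  · obtain ⟨⟨ψ, hψ, Q, hQ⟩, -⟩ := FirstJets.result vol A (fun n => lam (σ n))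
      (hlam.comp hσ.tendsto_atTop) (fun n => u (σ n)) (fun n => E (σ n)) (fun n => hu _)
      (fun n => hE _) _ (fun n => L2 _) Φ hΦ hΦ0
    exact ⟨ψ, hψ, Q, hQ⟩
  · obtain ⟨h1, h2⟩ := (H σ hσ).limits T hΦ0 (E := fun n => E (σ n)) (fun n => (hE _).1)
      (hκ2 σ hσ) (P : Measure (ℝ × ℝ)) hP
    refine ⟨h1, h2, fun k => ?_⟩
    obtain ⟨-, h3⟩ := FirstJets.result vol A (fun n => lam (σ n))
      (hlam.comp hσ.tendsto_atTop) (fun n => u (σ n)) (fun n => E (σ n)) (fun n => hu _)
      (fun n => hE _) _ (fun n => L2 _) Φ hΦ hΦ0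
    obtain ⟨ac, tv⟩ := h3 P hP
    have z1 : (P : Measure (ℝ × ℝ)).real {p | p.1 = 0} = 0 := by
      refine le_antisymm (h2.trans ?_) measureReal_nonneg
      rw [k]; norm_num
    have z2 : (P : Measure (ℝ × ℝ)) {p | p.1 = 0} = 0 :=
      (measureReal_eq_zero_iff (measure_ne_top _ _)).1 z1
    have z3 : (P : Measure (ℝ × ℝ)) {(0, 0)} = 0 :=
      measure_mono_null (fun p hp => by
        rw [Set.mem_singleton_iff] at hp
        rw [hp]; rfl) z2
    refine ⟨fun N hN hN0 => ?_, fun w cw wi δ hδ => tv w cw wi (Or.inr z3) δ hδ⟩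
    refine measure_mono_null (t := {p | p.1 ∈ N ∧ p ≠ (0, 0)} ∪ {(0, 0)}) (fun p hp => ?_)
      (measure_union_null (ac N hN hN0) z3)
    by_cases hp0 : p = (0, 0)
    · exact Or.inr hp0
    · exact Or.inl ⟨hp, hp0⟩

end

end Pool.Agent.Results.MP_a52643_an.FourthMomentLimitLaws
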